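import Pool.Agent.X159.VM.Main

/-!
# Vinogradov mean values without `ε` and conditioned solutions

For `s ≥ 2` and every modulus `q ≥ 128 s⁴`, the bound `J_{s,k}(N) ≪ N^s + N^(2s - k(k+1)/2)` is
equivalent to the same bound for the solutions with `x_i ≡ y_i (mod q)` and `x_1, …, x_s` pairwise
incongruent modulo `q`.  Q1 is equivalent to this at the critical pairs `s = k(k+1)/2`, `k ≥ 3`,
and `(4, 2)`, each for one modulus.
-/

set_option autoImplicit false

namespace Pool.Agent.Results.MP_e21eee_nt.ConditionedSolutions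

open Pool.Agent.X159.VM

theorem result :
    (∀ s k q : ℕ, 2 ≤ s → 1 ≤ k → 128 * s ^ 4 ≤ q → (MeanValue s k ↔ CondMeanValue s k q)) ∧
    (Vaughan ↔ ∀ s k : ℕ, Critical s k → ∃ q : ℕ, 128 * s ^ 4 ≤ q ∧ CondMeanValue s k q) :=
  vm_main

end Pool.Agent.Results.MP_e21eee_nt.ConditionedSolutions
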