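import Mathlib
import Pool.Agent.X37.VD.Main

set_option autoImplicit false

/-!
# Vinogradov mean values without `ε`: arbitrary measures and arbitrary dense sets

Among all probability measures on `{1, …, N}` the uniform one minimises, up to the factor `4 ^ s`, the
probability that two independent `s`-tuples of independent integers solve Vinogradov's system.  So the
bound `J_{s,k}(N) ≪ N ^ s + N ^ (2 s - k (k + 1) / 2)` of Q1 holds if and only if the corresponding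
bound holds for *some* sequence of probability measures on the sets `{1, …, N}`; and it is equivalent
to the bound for the solutions with all variables in `A_N`, for every (equivalently: some) family of
sets `A_N ⊆ {1, …, N}` with at least `δ N` elements, even for those of these solutions for which
`x_i ≡ y_i` modulo `q` and `x_1, …, x_s` are pairwise incongruent modulo `q`, `q ≥ 2048 s ^ 4 / δ ^ 4`.
-/

namespace Pool.Agent.Results.MP_e21eee_nt.DenseSubsets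

open Finset Filter

/-- the solutions `(x, y)` of Vinogradov's system, `∑ x_i ^ j = ∑ y_i ^ j` for `1 ≤ j ≤ k`, with
`x_1, …, x_s, y_1, …, y_s` in the finite set `A` -/
def solutions (s k : ℕ) (A : Finset ℕ) : Finset ((Fin s → ℕ) × (Fin s → ℕ)) :=
  ((Fintype.piFinset fun _ : Fin s => A) ×ˢ (Fintype.piFinset fun _ : Fin s => A)).filter
    (fun p => ∀ j : Fin k, ∑ i : Fin s, p.1 i ^ (j.val + 1) = ∑ i : Fin s, p.2 i ^ (j.val + 1))

/-- the solutions in `A` with `x_i ≡ y_i` modulo `q` for all `i`, and `x_1, …, x_s` pairwise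
incongruent modulo `q` -/
def conditioned (s k q : ℕ) (A : Finset ℕ) : Finset ((Fin s → ℕ) × (Fin s → ℕ)) :=
  (solutions s k A).filter
    (fun p => (∀ i, p.1 i % q = p.2 i % q) ∧ ∀ i j, p.1 i % q = p.1 j % q → i = j)

/-- the number of solutions in `[1, N]` -/
def J (s k N : ℕ) : ℕ := (solutions s k (Finset.Icc 1 N)).card

/-- the weighted number of solutions in `[1, L]` -/
def JW (s k L : ℕ) (w : ℕ → ℝ) : ℝ :=
  ∑ p ∈ solutions s k (Finset.Icc 1 L), (∏ i, w (p.1 i)) * ∏ i, w (p.2 i)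

/-- `N ^ s + N ^ (2 s - k (k + 1) / 2)` -/
noncomputable def B (s k N : ℕ) : ℝ :=
  (N : ℝ) ^ (s : ℝ) + (N : ℝ) ^ (2 * (s : ℝ) - (k : ℝ) * ((k : ℝ) + 1) / 2)

/-- `J_{s,k}(N) ≪ B(N)` -/
def MeanValue (s k : ℕ) : Prop := ∃ C : ℝ, ∀ N : ℕ, 1 ≤ N → (J s k N : ℝ) ≤ C * B s k N

/-- Q1: `J_{s,k}(N) ≪ B(N)` for all `s, k ≥ 1` with `(s, k) ≠ (3, 2)` -/
def Vaughan : Prop := ∀ s k : ℕ, 1 ≤ s → 1 ≤ k → (s, k) ≠ (3, 2) → MeanValue s k

/-- for some probability weights on `[1, N]` the weighted number of solutions is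
`≪ B(N) / N ^ (2 s)` -/
def MeasureBound (s k : ℕ) : Prop :=
  ∃ C : ℝ, ∀ N : ℕ, 1 ≤ N → ∃ w : ℕ → ℝ, (∀ n, 0 ≤ w n) ∧ ∑ n ∈ Finset.Icc 1 N, w n = 1 ∧
    (N : ℝ) ^ (2 * s) * JW s k N w ≤ C * B s k N

/-- sets `A_N ⊆ [1, N]` with at least `δ N` elements for all large `N` -/
def DenseFamily (δ : ℝ) (A : ℕ → Finset ℕ) : Prop :=
  (∀ N, A N ⊆ Finset.Icc 1 N) ∧ ∀ᶠ N : ℕ in atTop, δ * N ≤ (A N).card

/-- the number of solutions in `A_N` is `≪ B(N)` -/
def BoundOn (A : ℕ → Finset ℕ) (s k : ℕ) : Prop :=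
  ∃ C : ℝ, ∀ N : ℕ, 1 ≤ N → ((solutions s k (A N)).card : ℝ) ≤ C * B s k N

/-- the number of conditioned solutions in `A_N` is `≪ B(N)` -/
def CondBoundOn (A : ℕ → Finset ℕ) (s k q : ℕ) : Prop :=
  ∃ C : ℝ, ∀ N : ℕ, 1 ≤ N → ((conditioned s k q (A N)).card : ℝ) ≤ C * B s k N

/-- the pairs `(4, 2)` and `(k (k + 1) / 2, k)`, `k ≥ 3` -/
def Critical (s k : ℕ) : Prop := (s = 4 ∧ k = 2) ∨ (3 ≤ k ∧ 2 * s = k * (k + 1))

/-- **Comparison of the interval with arbitrary weights, and Vaughan's conjecture from arbitrary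
measures and from arbitrary dense sets.** -/
theorem result :
    (∀ s k N L : ℕ, 1 ≤ s → ∀ w : ℕ → ℝ, (∀ n, 0 ≤ w n) →
      (∑ n ∈ Finset.Icc 1 L, w n) ^ (2 * s) * (J s k N : ℝ) ≤
        ((N + L : ℕ) : ℝ) ^ (2 * s) * JW s k L w) ∧
    (∀ s k : ℕ, 1 ≤ s → (MeanValue s k ↔ MeasureBound s k)) ∧
    (∀ (δ : ℝ) (A : ℕ → Finset ℕ), 0 < δ → DenseFamily δ A →
      (∀ s k : ℕ, 1 ≤ s → (MeanValue s k ↔ BoundOn A s k)) ∧
      (∀ s k q : ℕ, 2 ≤ s → 2048 * (s : ℝ) ^ 4 ≤ δ ^ 4 * q →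
        (MeanValue s k ↔ CondBoundOn A s k q)) ∧
      (Vaughan ↔ ∀ s k : ℕ, Critical s k → BoundOn A s k)) ∧
    (Vaughan ↔ ∀ s k : ℕ, Critical s k → MeasureBound s k) ∧
    (Vaughan ↔ ∀ s k : ℕ, Critical s k → ∃ δ : ℝ, 0 < δ ∧ ∃ A : ℕ → Finset ℕ,
      DenseFamily δ A ∧ ∃ q : ℕ, 2048 * (s : ℝ) ^ 4 ≤ δ ^ 4 * q ∧ CondBoundOn A s k q) :=
  ⟨fun s k N L hs w hw => Pool.Agent.X37.VD.comparison s k N L hs w hw,
    fun _ _ hs => Pool.Agent.X37.VD.measure_iff hs,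
    fun _ _ hδ hA => ⟨fun _ _ hs => Pool.Agent.X37.VD.dense_iff hδ hA hs,
      fun _ _ _ hs hq => Pool.Agent.X37.VD.dense_cond_iff hδ hA hs hq,
      Pool.Agent.X37.VD.vaughan_dense hδ hA⟩,
    Pool.Agent.X37.VD.vaughan_measure, Pool.Agent.X37.VD.vaughan_cond⟩

end Pool.Agent.Results.MP_e21eee_nt.DenseSubsets
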