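import Pool.Agent.Results.MP_e21eee_nt.PaucitySquareRoot
import Pool.Agent.X174.WinQ
import Pool.Agent.X174.WinVec

/-!
# Vinogradov's system: only diagonal solutions for ALL right hand sides in cubes

Let `k < s`, `d = s - k`, `3 d ≤ k` and `e = √(4 (2 d - 1) s + 1) + d - 1`. For `9 d ≤ k` it is `e ≤ s - 1`; for `s = k + 1` it
is `e = √(4 k + 5)`.

**Theorem.** For every sequence `v ≥ 1` of exponent of convergence at most `τ` (for `v_i = (i + 1) ^ c` this is `1 / c`, for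
`v_i = c ^ i` it is `0`) and every `ρ < 1` there is a set `E ⊂ ℝ^s` of Hausdorff dimension at most `(e + τ) / (1 - ρ)` such that
for each `x ∈ ℝ^s` outside `E` there is `i₀` such that for ALL integers `a_1, …, a_s` in one of the cubes
`|a_l - h - x_l v_i| ≤ v_i ^ ρ`, `i ≥ i₀`, `h` any integer, ALL integral solutions `b` of
`b_1 ^ j + … + b_s ^ j = a_1 ^ j + … + a_s ^ j`, `1 ≤ j ≤ k`, are the permutations of `a`.

In particular the number of the solutions `(a, b)` with `a` in such a cube `Q` is at most `s! |Q|`, where `|Q|` is the number of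
the integral points of `Q` and `b` is not restricted: the bound `J ≪ X ^ s` of the problem holds for each of these cubes.
The count of the non-diagonal solutions is the starting result `PaucitySquareRoot`.
-/

set_option autoImplicit false

open Finset

namespace Pool.Agent.Results.MP_e21eee_nt.SolutionsInCubes

/-- the exponent of convergence of the sequence `v` is at most `τ` -/
def ExpLe (v : ℕ → ℝ) (τ : ℝ) : Prop := ∀ t : ℝ, τ < t → Summable (fun n : ℕ => (v n) ^ (-t))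

/-- the exponent in the count of the non-diagonal solutions -/
noncomputable def expo (s k : ℕ) : ℝ := Real.sqrt (4 * (2 * ((s : ℝ) - k) - 1) * s + 1) + ((s : ℝ) - k - 1)

/-- equal power sums of degree `1, …, k` -/
def Eqs {R : Type} [CommRing R] {s : ℕ} (k : ℕ) (a b : Fin s → R) : Prop :=
  ∀ j : Fin k, ∑ i, a i ^ (j.val + 1) = ∑ i, b i ^ (j.val + 1)

/-- the `a` with a non-diagonal solution -/
def Bad {s : ℕ} (k : ℕ) (a : Fin s → ℤ) : Prop := ∃ b : Fin s → ℤ, Eqs k a b ∧ ¬ ∃ σ : Equiv.Perm (Fin s), b = a ∘ σ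

lemma powersum_shift {R : Type} [CommRing R] {s : ℕ} (a : Fin s → R) (h : R) (m : ℕ) :
    ∑ i, (a i + h) ^ m = ∑ l ∈ range (m + 1), (∑ i, a i ^ l) * (h ^ (m - l) * (m.choose l : R)) := by
  simp only [add_pow, Finset.sum_mul]
  rw [Finset.sum_comm]
  refine Finset.sum_congr rfl fun l _ => Finset.sum_congr rfl fun i _ => ?_
  ring

/-- the system is invariant under translations -/
lemma eqs_shift {s k : ℕ} {a b : Fin s → ℤ} (h : ℤ) (hab : Eqs k a b) : Eqs k (fun i => a i + h) (fun i => b i + h) := by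
  intro j
  show ∑ i, (a i + h) ^ (j.val + 1) = ∑ i, (b i + h) ^ (j.val + 1)
  rw [powersum_shift, powersum_shift]
  refine Finset.sum_congr rfl fun l hl => ?_
  congr 1
  rcases Nat.eq_zero_or_pos l with rfl | hl0
  · simp
  · have hl1 : l - 1 < k := by
      have := Finset.mem_range.1 hl
      have := j.2
      omega
    have h1 := hab ⟨l - 1, hl1⟩
    simp only at h1
    rwa [Nat.sub_add_cancel hl0] at h1

lemma bad_shift {s k : ℕ} {a : Fin s → ℤ} (h : ℤ) (hb : Bad k a) : Bad k (fun i => a i + h) := by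
  obtain ⟨b, h1, h2⟩ := hb
  refine ⟨fun i => b i + h, eqs_shift h h1, fun ⟨σ, hσ⟩ => h2 ⟨σ, ?_⟩⟩
  funext i
  have := congrFun hσ i
  simp only [Function.comp_apply] at this ⊢
  linarith

/-- the exceptional `a` in `[-H, H] ^ s`: at most `C (2 s H + …) ^ (e + ε)` -/
lemma count {s k : ℕ} (hks : k < s) (h3 : 3 * (s - k) ≤ k) {ε : ℝ} (hε : 0 < ε) : ∃ C : ℝ, ∀ H : ℕ, 1 ≤ H →
    {a : Fin s → ℤ | (∀ i, |a i| ≤ (H : ℤ)) ∧ Bad k a}.Finite ∧
    (({a : Fin s → ℤ | (∀ i, |a i| ≤ (H : ℤ)) ∧ Bad k a}.ncard : ℕ) : ℝ) ≤ C * (H : ℝ) ^ (expo s k + ε) := by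
  classical
  obtain ⟨C, hC⟩ := (PaucitySquareRoot.result s k hks).1 h3 ε hε
  have hk2 : 2 ≤ k := by omega
  have hs1 : 1 ≤ s := by omega
  have hsR : (1 : ℝ) ≤ s := by exact_mod_cast hs1
  have he : 0 ≤ expo s k := by
    unfold expo
    have h1 : (1 : ℝ) ≤ (s : ℝ) - k := by
      have : (k : ℝ) + 1 ≤ s := by exact_mod_cast hks
      linarith
    have := Real.sqrt_nonneg (4 * (2 * ((s : ℝ) - k) - 1) * s + 1)
    linarith
  refine ⟨|C| * (4 * s + 4 : ℝ) ^ (expo s k + ε), fun H hH => ?_⟩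
  have hHR : (1 : ℝ) ≤ H := by exact_mod_cast hH
  have hfin : {a : Fin s → ℤ | (∀ i, |a i| ≤ (H : ℤ)) ∧ Bad k a}.Finite := by
    refine (Set.finite_Icc (fun _ : Fin s => -(H : ℤ)) (fun _ => (H : ℤ))).subset ?_
    rintro t ⟨ht, -⟩
    exact ⟨fun i => (abs_le.1 (ht i)).1, fun i => (abs_le.1 (ht i)).2⟩
  refine ⟨hfin, ?_⟩
  -- translation by `h = s H + 1`
  set N : ℕ := 2 * (s * H + 1) with hN
  have hN1 : 1 ≤ N := by omega
  set W := (((Fintype.piFinset fun _ : Fin s => Finset.Icc 1 N) ×ˢ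
          (Fintype.piFinset fun _ : Fin s => Finset.Icc 1 N)).filter
          (fun p : (Fin s → ℕ) × (Fin s → ℕ) =>
            (∀ j : Fin k, ∑ i : Fin s, p.1 i ^ (j.val + 1) = ∑ i : Fin s, p.2 i ^ (j.val + 1)) ∧
            ¬ ∃ σ : Equiv.Perm (Fin s), p.2 = p.1 ∘ σ)) with hW
  have hWc : (W.card : ℝ) ≤ C * (N : ℝ) ^ (expo s k + ε) := hC N hN1
  have hsub : {a : Fin s → ℤ | (∀ i, |a i| ≤ (H : ℤ)) ∧ Bad k a} ⊆
      ((W.image fun p : (Fin s → ℕ) × (Fin s → ℕ) => fun i => (p.1 i : ℤ) - (s * H + 1)) : Set (Fin s → ℤ)) := by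
    rintro a ⟨ha, b, hab, hnd⟩
    -- bound for `b`
    have hsq : ∀ i, b i ^ 2 ≤ s * (H : ℤ) ^ 2 := by
      intro i
      have h1 := hab ⟨1, by omega⟩
      simp only at h1
      have h2 : b i ^ 2 ≤ ∑ i, b i ^ (1 + 1) := Finset.single_le_sum (f := fun i => b i ^ 2) (fun i _ => sq_nonneg _)
        (Finset.mem_univ i)
      have h4 : ∑ i, a i ^ (1 + 1) ≤ ∑ _i : Fin s, (H : ℤ) ^ 2 := by
        refine Finset.sum_le_sum fun i _ => ?_
        have := ha i
        have h5 : |a i| ^ 2 ≤ (H : ℤ) ^ 2 := pow_le_pow_left₀ (abs_nonneg _) this 2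
        rwa [sq_abs] at h5
      rw [Finset.sum_const, Finset.card_univ, Fintype.card_fin, nsmul_eq_mul] at h4
      rw [← h1] at h2
      exact h2.trans h4
    have hb : ∀ i, |b i| ≤ (s : ℤ) * H := by
      intro i
      have hs1' : (1 : ℤ) ≤ s := by exact_mod_cast hs1
      have hH0 : (0 : ℤ) ≤ H := by positivity
      have h6 : b i ^ 2 ≤ ((s : ℤ) * H) ^ 2 := by
        refine (hsq i).trans ?_
        rw [mul_pow]
        apply mul_le_mul_of_nonneg_right _ (by positivity)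
        nlinarith
      exact abs_le_of_sq_le_sq h6 (by positivity)
    have haH : ∀ i, |a i| ≤ (s : ℤ) * H := by
      intro i
      have hs1' : (1 : ℤ) ≤ s := by exact_mod_cast hs1
      have hH0 : (0 : ℤ) ≤ H := by positivity
      have := ha i
      nlinarith
    set h : ℤ := s * H + 1 with hh
    have hpa : ∀ i, 0 < a i + h := fun i => by have := (abs_le.1 (haH i)).1; omega
    have hpb : ∀ i, 0 < b i + h := fun i => by have := (abs_le.1 (hb i)).1; omega
    have hua : ∀ i, a i + h ≤ N := fun i => by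
      have := (abs_le.1 (haH i)).2
      rw [hN]
      push_cast
      linarith
    have hub : ∀ i, b i + h ≤ N := fun i => by
      have := (abs_le.1 (hb i)).2
      rw [hN]
      push_cast
      linarith
    refine Finset.mem_coe.2 (Finset.mem_image.2 ⟨(fun i => (a i + h).toNat, fun i => (b i + h).toNat), ?_, ?_⟩)
    · rw [hW, Finset.mem_filter, Finset.mem_product, Fintype.mem_piFinset, Fintype.mem_piFinset]
      refine ⟨⟨fun i => ?_, fun i => ?_⟩, fun j => ?_, ?_⟩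
      · rw [Finset.mem_Icc]
        have h1 := hpa i
        have h2 := hua i
        show 1 ≤ (a i + h).toNat ∧ (a i + h).toNat ≤ N
        omega
      · rw [Finset.mem_Icc]
        have h1 := hpb i
        have h2 := hub i
        show 1 ≤ (b i + h).toNat ∧ (b i + h).toNat ≤ N
        omega
      · have h1 := eqs_shift h hab j
        have ea : ∀ i, (((a i + h).toNat : ℕ) : ℤ) = a i + h := fun i => Int.toNat_of_nonneg (hpa i).le
        have eb : ∀ i, (((b i + h).toNat : ℕ) : ℤ) = b i + h := fun i => Int.toNat_of_nonneg (hpb i).le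
        have h2 : ((∑ i, (a i + h).toNat ^ (j.val + 1) : ℕ) : ℤ) = ((∑ i, (b i + h).toNat ^ (j.val + 1) : ℕ) : ℤ) := by
          push_cast [ea, eb]
          exact h1
        exact_mod_cast h2
      · rintro ⟨σ, hσ⟩
        refine hnd ⟨σ, ?_⟩
        funext i
        have h1 := congrFun hσ i
        simp only [Function.comp_apply] at h1 ⊢
        have h2 := hpa (σ i)
        have h3 := hpb i
        omega
    · funext i
      have := hpa i
      show (((a i + h).toNat : ℕ) : ℤ) - (s * H + 1) = a i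
      rw [Int.toNat_of_nonneg this.le]
      ring
  have h1 : (({a : Fin s → ℤ | (∀ i, |a i| ≤ (H : ℤ)) ∧ Bad k a}.ncard : ℕ) : ℝ) ≤ (W.card : ℝ) := by
    have h2 := Set.ncard_le_ncard hsub (Finset.finite_toSet _)
    rw [Set.ncard_coe_finset] at h2
    exact_mod_cast h2.trans Finset.card_image_le
  have h2 : (N : ℝ) ≤ (4 * s + 4) * H := by
    rw [hN]
    push_cast
    nlinarith
  calc (({a : Fin s → ℤ | (∀ i, |a i| ≤ (H : ℤ)) ∧ Bad k a}.ncard : ℕ) : ℝ) ≤ C * (N : ℝ) ^ (expo s k + ε) := h1.trans hWc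
    _ ≤ |C| * ((4 * s + 4) * H : ℝ) ^ (expo s k + ε) :=
        mul_le_mul (le_abs_self _) (Real.rpow_le_rpow (Nat.cast_nonneg _) h2 (by linarith)) (by positivity) (abs_nonneg _)
    _ = |C| * (4 * s + 4 : ℝ) ^ (expo s k + ε) * (H : ℝ) ^ (expo s k + ε) := by
        rw [Real.mul_rpow (by positivity) (by positivity)]
        ring

/-- **Only diagonal solutions for all right hand sides in cubes.** Let `k < s`, `3 (s - k) ≤ k` and
`e = √(4 (2 (s - k) - 1) s + 1) + s - k - 1`. For every sequence `v ≥ 1` of exponent of convergence at most `τ ≥ 0` and every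
`ρ < 1` there is a set `E ⊂ ℝ^s` of Hausdorff dimension at most `(e + τ) / (1 - ρ)` such that for each `x` outside `E` there is
`i₀` such that for all `i ≥ i₀`, all integers `h`, all `a ∈ ℤ^s` with `|a_l - h - x_l v_i| ≤ v_i ^ ρ` for all `l` and all
`b ∈ ℤ^s` with `∑ a_l ^ j = ∑ b_l ^ j`, `1 ≤ j ≤ k`, `b` is a permutation of `a`. If `9 (s - k) ≤ k` then `e ≤ s - 1`. The
sequences `v_i = (i + 1) ^ c` and `v_i = c ^ i` have exponent of convergence at most `1 / c` and `0`. -/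
theorem result :
    (∀ s k : ℕ, k < s → 3 * (s - k) ≤ k → ∀ (v : ℕ → ℝ) (τ ρ : ℝ), (∀ i, 1 ≤ v i) → 0 ≤ τ → ExpLe v τ → ρ < 1 →
      ∃ E : Set (Fin s → ℝ), dimH E ≤ ENNReal.ofReal ((expo s k + τ) / (1 - ρ)) ∧ ∀ x : Fin s → ℝ, x ∉ E →
        ∃ i₀ : ℕ, ∀ i : ℕ, i₀ ≤ i → ∀ (h : ℤ) (a : Fin s → ℤ), (∀ l, |(a l : ℝ) - h - x l * v i| ≤ (v i) ^ ρ) →
          ∀ b : Fin s → ℤ, Eqs k a b → ∃ σ : Equiv.Perm (Fin s), b = a ∘ σ) ∧
    (∀ s k : ℕ, k < s → 9 * (s - k) ≤ k → expo s k ≤ s - 1) ∧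
    (∀ c : ℝ, 0 < c → ExpLe (fun n : ℕ => ((n : ℝ) + 1) ^ c) (1 / c)) ∧
    (∀ c : ℝ, 1 < c → ExpLe (fun n : ℕ => c ^ n) 0) := by
  refine ⟨fun s k hks h3 v τ ρ hv hτ hE hρ => ?_, fun s k hks h9 => ?_, fun κ hκ => Pool.Agent.Y854.GM.expLe_pow κ hκ,
    fun b hb => Pool.Agent.Y854.GM.expLe_geom b hb⟩
  · have he : 0 ≤ expo s k := by
      unfold expo
      have h1 : (1 : ℝ) ≤ (s : ℝ) - k := by
        have : (k : ℝ) + 1 ≤ s := by exact_mod_cast hks
        linarith
      have := Real.sqrt_nonneg (4 * (2 * ((s : ℝ) - k) - 1) * s + 1)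
      linarith
    obtain ⟨E, h1, h2⟩ := Pool.Agent.X174.winFamE (κ := Fin s) (Q := Fin s → ℤ) (fun a j => (a j : ℝ))
      (fun T => {a : Fin s → ℤ | (∀ i, |a i| ≤ (⌈T⌉₊ : ℤ)) ∧ Bad k a}) (s := expo s k) he (by
        intro ε hε
        obtain ⟨C, hC⟩ := count hks h3 hε
        refine ⟨|C| * 2 ^ (expo s k + ε), fun T hT => ?_⟩
        have hTp : (0 : ℝ) < T := by linarith
        have hH1 : 1 ≤ ⌈T⌉₊ := Nat.one_le_iff_ne_zero.2 (Nat.ceil_pos.2 hTp).ne'
        have hH2 : (⌈T⌉₊ : ℝ) ≤ 2 * T := by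
          have := Nat.ceil_lt_add_one hTp.le
          linarith
        obtain ⟨h3, h4⟩ := hC _ hH1
        refine ⟨h3, h4.trans ?_⟩
        calc C * ((⌈T⌉₊ : ℕ) : ℝ) ^ (expo s k + ε) ≤ |C| * (2 * T) ^ (expo s k + ε) :=
              mul_le_mul (le_abs_self _) (Real.rpow_le_rpow (Nat.cast_nonneg _) hH2 (by linarith)) (by positivity)
                (abs_nonneg _)
          _ = |C| * 2 ^ (expo s k + ε) * T ^ (expo s k + ε) := by
              rw [Real.mul_rpow (by norm_num) hTp.le]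
              ring) hv hτ hE hρ
    refine ⟨E, h1, fun x hx => ?_⟩
    obtain ⟨R, hR, hRc⟩ := Pool.Agent.X174.le_of_cube x
    obtain ⟨i₀, hi₀⟩ := h2 x hx R hR
    refine ⟨i₀, fun i hi h a ha b hab => ?_⟩
    by_contra hnd
    have hbad : Bad k (fun l => a l + (-h)) := bad_shift (-h) ⟨b, hab, hnd⟩
    have ha' : ∀ l, |((a l + (-h) : ℤ) : ℝ) - x l * v i| ≤ (v i) ^ ρ := by
      intro l
      have := ha l
      push_cast
      rwa [← sub_eq_add_neg]
    have h6 := hRc (fun l => ((a l + (-h) : ℤ) : ℝ)) (v i) ρ (hv i) hρ ha'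
    refine hi₀ i hi (fun l => a l + (-h)) ha' ⟨fun l => ?_, hbad⟩
    have h7 : ((|a l + (-h)| : ℤ) : ℝ) ≤ ((⌈(R : ℝ) * v i⌉₊ : ℕ) : ℝ) := by
      have h8 := (h6 l).trans (Nat.le_ceil _)
      rw [Int.cast_abs]
      exact h8
    exact_mod_cast h7
  · unfold expo
    have h1 : (k : ℝ) + 1 ≤ s := by exact_mod_cast hks
    have h2 : (9 : ℝ) * (s - k) ≤ k := by
      have : ((9 * (s - k) : ℕ) : ℝ) ≤ k := by exact_mod_cast h9
      rw [Nat.cast_mul, Nat.cast_sub hks.le] at this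
      exact_mod_cast this
    have hk0 : (0 : ℝ) ≤ k := Nat.cast_nonneg _
    have h4 : Real.sqrt (4 * (2 * ((s : ℝ) - k) - 1) * s + 1) ≤ k := by
      apply Real.sqrt_le_iff.2 ⟨hk0, ?_⟩
      nlinarith
    linarith

end Pool.Agent.Results.MP_e21eee_nt.SolutionsInCubes
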